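import Pool.Agent.W734.TWB.Stms

/-! TWB-Z: removing a particle changes the norm of the Jastrow factor very little. -/

set_option autoImplicit false

open MeasureTheory Filter
open Pool.Agent.W734.TWB

namespace Pool.Agent.W162.TWB

theorem wu_nonneg {N : ℕ} (u : E3 → ℂ) (x : Cfg N) : 0 ≤ wu u x :=
  Finset.prod_nonneg fun _ _ => by positivity

theorem sq_int {u : E3 → ℂ} (hu : Orb u) : Integrable (fun z => ‖u z‖ ^ 2) := by
  have hc : Continuous u := hu.diff.continuous
  apply Continuous.integrable_of_hasCompactSupport (by fun_prop)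
  exact hu.supp.comp_left (g := fun z : ℂ => ‖z‖ ^ 2) (by simp)

theorem wu_int {u : E3 → ℂ} (hu : Orb u) (N : ℕ) : Integrable (fun x : Cfg N => wu u x) := by
  unfold wu
  exact Integrable.fintype_prod (f := fun (_ : Fin N) (z : E3) => ‖u z‖ ^ 2) fun _ => sq_int hu

theorem wu_meas {u : E3 → ℂ} (hu : Orb u) (N : ℕ) : Measurable (fun x : Cfg N => wu u x) := by
  unfold wu
  have hc : Continuous u := hu.diff.continuous
  have : Continuous (fun x : Cfg N => ∏ i, ‖u (x i)‖ ^ 2) := by fun_prop
  exact this.measurable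

theorem intg {u : E3 → ℂ} (hu : Orb u) {N : ℕ} {g : Cfg N → ℝ} (hg : Measurable g)
    (h0 : ∀ x, 0 ≤ g x) (h1 : ∀ x, g x ≤ 1) : Integrable (fun x => wu u x * g x) := by
  refine (wu_int hu N).mono' ((wu_meas hu N).mul hg).aestronglyMeasurable ?_
  refine Eventually.of_forall fun x => ?_
  rw [Real.norm_eq_abs, abs_of_nonneg (mul_nonneg (wu_nonneg u x) (h0 x))]
  have := mul_le_mul_of_nonneg_left (h1 x) (wu_nonneg u x)
  simpa using this

theorem nr_nonneg {N : ℕ} (r : ℝ) (m a : Fin N) (x : Cfg N) : 0 ≤ nr r m a x := by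
  unfold nr; split_ifs <;> norm_num

theorem nr_le {N : ℕ} (r : ℝ) (m a : Fin N) (x : Cfg N) : nr r m a x ≤ 1 := by
  unfold nr; split_ifs <;> norm_num

theorem nr_symm {N : ℕ} (r : ℝ) (m a : Fin N) (x : Cfg N) : nr r m a x = nr r a m x := by
  unfold nr; rw [norm_sub_rev]

theorem nr_meas {N : ℕ} (r : ℝ) (m a : Fin N) : Measurable (nr r m a) := by
  unfold nr
  refine Measurable.ite ?_ measurable_const measurable_const
  have : Continuous (fun x : Cfg N => ‖x m - x a‖) := by fun_prop
  exact (isClosed_le this continuous_const).measurableSet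

theorem wh_eq {N : ℕ} (u : E3 → ℂ) (m : Fin N) (x : Cfg N) :
    wh (fun z => ‖u z‖ ^ 2) u m x = wu u x := by
  unfold wh wu
  exact Finset.mul_prod_erase Finset.univ (fun i => ‖u (x i)‖ ^ 2) (Finset.mem_univ m)

theorem nb {u : E3 → ℂ} (hu : Orb u) : NB (fun z : E3 => ‖u z‖ ^ 2) where
  meas := by
    have hc : Continuous u := hu.diff.continuous
    have : Continuous (fun z : E3 => ‖u z‖ ^ 2) := by fun_prop
    exact this.measurable
  nonneg := fun x => by positivity
  bdd := by
    have hc : Continuous u := hu.diff.continuous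
    obtain ⟨M, hM⟩ := hc.bounded_above_of_compact_support hu.supp
    exact ⟨M ^ 2, fun x => pow_le_pow_left₀ (norm_nonneg _) (hM x) 2⟩
  supp := hu.supp.comp_left (g := fun z : ℂ => ‖z‖ ^ 2) (by simp)

/-- The Jastrow factors, abstractly. -/
structure JF {N : ℕ} (J : Finset (Fin N) → Cfg N → ℝ) (r ρ : ℝ) : Prop where
  meas : ∀ A, Measurable (J A)
  nonneg : ∀ A x, 0 ≤ J A x
  le_one : ∀ A x, J A x ≤ 1
  mono : ∀ A B : Finset (Fin N), B ⊆ A → ∀ x, J A x ≤ J B x
  low : ∀ (A : Finset (Fin N)) (i : Fin N), i ∈ A → ∀ x : Cfg N,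
    (J (A.erase i) x) ^ 2 * (1 - (∑ a ∈ A.erase i, nr r i a x)
      - ∑ a ∈ A.erase i, ∑ b ∈ (A.erase i).erase a, nr ρ i a x * nr ρ a b x) ≤ (J A x) ^ 2

theorem sq_le {N : ℕ} {J : Finset (Fin N) → Cfg N → ℝ} {r ρ : ℝ} (hJ : JF J r ρ)
    (A : Finset (Fin N)) (x : Cfg N) : J A x ^ 2 ≤ 1 := by
  have h0 := hJ.nonneg A x
  have h1 := hJ.le_one A x
  nlinarith

theorem main_ineq {u : E3 → ℂ} (hu : Orb u) {N : ℕ} {J : Finset (Fin N) → Cfg N → ℝ} {r ρ : ℝ}
    (hJ : JF J r ρ) (A : Finset (Fin N)) (i : Fin N) (hi : i ∈ A) :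
    ∫ x, wu u x * J (A.erase i) x ^ 2 ≤ (∫ x, wu u x * J A x ^ 2)
      + (∑ a ∈ A.erase i, ∫ x, wu u x * (nr r i a x * J (A.erase i) x ^ 2))
      + ∑ a ∈ A.erase i, ∑ b ∈ (A.erase i).erase a,
          ∫ x, wu u x * (nr ρ i a x * nr ρ a b x * J (A.erase i) x ^ 2) := by
  have m2 : ∀ B, Measurable fun x => J B x ^ 2 := fun B => (hJ.meas B).pow_const 2
  have i0 : ∀ B, Integrable fun x => wu u x * J B x ^ 2 := fun B =>
    intg hu (m2 B) (fun x => sq_nonneg _) (sq_le hJ B)
  have i1 : ∀ a B, Integrable fun x => wu u x * (nr r i a x * J B x ^ 2) := fun a B =>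
    intg hu ((nr_meas r i a).mul (m2 B))
      (fun x => mul_nonneg (nr_nonneg r i a x) (sq_nonneg _))
      (fun x => mul_le_one₀ (nr_le r i a x) (sq_nonneg _) (sq_le hJ B x))
  have i2 : ∀ a b B, Integrable fun x => wu u x * (nr ρ i a x * nr ρ a b x * J B x ^ 2) :=
    fun a b B => intg hu (((nr_meas ρ i a).mul (nr_meas ρ a b)).mul (m2 B))
      (fun x => mul_nonneg (mul_nonneg (nr_nonneg ρ i a x) (nr_nonneg ρ a b x)) (sq_nonneg _))
      (fun x => mul_le_one₀ (mul_le_one₀ (nr_le ρ i a x) (nr_nonneg ρ a b x) (nr_le ρ a b x))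
        (sq_nonneg _) (sq_le hJ B x))
  have i3 : Integrable fun x => ∑ a ∈ A.erase i, wu u x * (nr r i a x * J (A.erase i) x ^ 2) :=
    integrable_finsetSum _ fun a _ => i1 a _
  have i4 : Integrable fun x => ∑ a ∈ A.erase i, ∑ b ∈ (A.erase i).erase a,
      wu u x * (nr ρ i a x * nr ρ a b x * J (A.erase i) x ^ 2) :=
    integrable_finsetSum _ fun a _ => integrable_finsetSum _ fun b _ => i2 a b _
  calc ∫ x, wu u x * J (A.erase i) x ^ 2
      ≤ ∫ x, ((wu u x * J A x ^ 2 + ∑ a ∈ A.erase i, wu u x * (nr r i a x * J (A.erase i) x ^ 2))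
          + ∑ a ∈ A.erase i, ∑ b ∈ (A.erase i).erase a,
            wu u x * (nr ρ i a x * nr ρ a b x * J (A.erase i) x ^ 2)) := by
        apply integral_mono (i0 _) (((i0 _).add i3).add i4)
        intro x
        have h1 := mul_le_mul_of_nonneg_left (hJ.low A i hi x) (wu_nonneg u x)
        have e1 : ∑ a ∈ A.erase i, wu u x * (nr r i a x * J (A.erase i) x ^ 2)
            = wu u x * (J (A.erase i) x ^ 2 * ∑ a ∈ A.erase i, nr r i a x) := by
          rw [Finset.mul_sum, Finset.mul_sum]
          exact Finset.sum_congr rfl fun a _ => by ring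
        have e2 : ∑ a ∈ A.erase i, ∑ b ∈ (A.erase i).erase a,
            wu u x * (nr ρ i a x * nr ρ a b x * J (A.erase i) x ^ 2)
            = wu u x * (J (A.erase i) x ^ 2 * ∑ a ∈ A.erase i, ∑ b ∈ (A.erase i).erase a,
              nr ρ i a x * nr ρ a b x) := by
          rw [Finset.mul_sum, Finset.mul_sum]
          refine Finset.sum_congr rfl fun a _ => ?_
          rw [Finset.mul_sum, Finset.mul_sum]
          exact Finset.sum_congr rfl fun b _ => by ring
        simp only [Pi.add_apply]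
        rw [e1, e2]
        linarith
    _ = _ := by
        have a1 := integral_add ((i0 A).add i3) i4
        have a2 := integral_add (i0 A) i3
        have a3 := integral_finsetSum (A.erase i) fun a (_ : a ∈ A.erase i) => i1 a (A.erase i)
        have a4 := integral_finsetSum (A.erase i) fun a (_ : a ∈ A.erase i) =>
          integrable_finsetSum ((A.erase i).erase a) fun b _ => i2 a b (A.erase i)
        have a5 : ∀ a, ∫ x, ∑ b ∈ (A.erase i).erase a,
            wu u x * (nr ρ i a x * nr ρ a b x * J (A.erase i) x ^ 2)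
            = ∑ b ∈ (A.erase i).erase a,
              ∫ x, wu u x * (nr ρ i a x * nr ρ a b x * J (A.erase i) x ^ 2) :=
          fun a => integral_finsetSum _ fun b _ => i2 a b _
        simp only [a5] at a4
        rw [← a4, ← a3, ← a2]
        exact a1

theorem z (hJ : S_JAB) (hCL : S_CL) : S_Z := by
  intro u hu R1 R2 f1 f2 hR1 hR2 hf1 hf2
  obtain ⟨C0, hC0, hCL⟩ := hCL u hu
  have hCL' := hCL R1 R2 f1 f2 hf1 hf2 (fun z => ‖u z‖ ^ 2) (nb hu)
  set C1 : ℝ := 2 * C0 * R1 ^ 3 + 4 * C0 ^ 2 * (2 * R2) ^ 6 with hC1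
  have hC1p : 0 < C1 := by positivity
  refine ⟨2 * C1, by positivity, ?_⟩
  filter_upwards [eventually_ge_atTop (Nat.ceil (2 * C1) + 1)] with N hN
  have hN1 : (1 : ℝ) ≤ N := by
    have : 1 ≤ N := by omega
    exact_mod_cast this
  have hN2 : 2 * C1 ≤ N := by
    have h1 : (Nat.ceil (2 * C1) : ℝ) + 1 ≤ N := by exact_mod_cast hN
    have h2 := Nat.le_ceil (2 * C1)
    linarith
  have hN0 : (0 : ℝ) < N := by linarith
  obtain ⟨j1, j2, j3, -, -, -, j7⟩ := hJ R1 R2 f1 f2 hf1 hf2 N
  have hJF : JF (fun A => JA f1 f2 A) (R1 / N) (2 * R2 / Real.sqrt N) (N := N) :=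
    ⟨fun A => (j1 A).continuous.measurable, fun A x => (j2 A x).1, fun A x => (j2 A x).2,
      fun A B h x => j3 A B h x, fun A i hi x => j7 A i hi x⟩
  set r : ℝ := R1 / N with hr
  set ρ : ℝ := 2 * R2 / Real.sqrt N with hρ
  have hr0 : 0 ≤ r := by positivity
  have hρ0 : 0 ≤ ρ := by positivity
  set Z : Finset (Fin N) → ℝ := fun A => ZA f1 f2 u A with hZ
  have hZe : ∀ A, Z A = ∫ x, wu u x * JA f1 f2 A x ^ 2 := fun A => rfl
  have hZ0 : ∀ A, 0 ≤ Z A := fun A =>
    integral_nonneg fun x => mul_nonneg (wu_nonneg u x) (sq_nonneg _)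
  have m2 : ∀ B, Measurable fun x : Cfg N => JA f1 f2 B x ^ 2 := fun B => (hJF.meas B).pow_const 2
  -- one close particle
  have t1 : ∀ (D : Finset (Fin N)) (i a : Fin N), i ∉ D → a ∈ D →
      ∫ x, wu u x * (nr r i a x * JA f1 f2 D x ^ 2) ≤ C0 * r ^ 3 * Z (D.erase a) := by
    intro D i a hi ha
    have hia : i ≠ a := fun h => hi (h ▸ ha)
    calc ∫ x, wu u x * (nr r i a x * JA f1 f2 D x ^ 2)
        ≤ ∫ x, wu u x * (nr r i a x * JA f1 f2 (D.erase a) x ^ 2) := by
          apply integral_mono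
          · exact intg hu ((nr_meas r i a).mul (m2 D))
              (fun x => mul_nonneg (nr_nonneg r i a x) (sq_nonneg _))
              (fun x => mul_le_one₀ (nr_le r i a x) (sq_nonneg _) (sq_le hJF D x))
          · exact intg hu ((nr_meas r i a).mul (m2 _))
              (fun x => mul_nonneg (nr_nonneg r i a x) (sq_nonneg _))
              (fun x => mul_le_one₀ (nr_le r i a x) (sq_nonneg _) (sq_le hJF _ x))
          · intro x
            apply mul_le_mul_of_nonneg_left _ (wu_nonneg u x)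
            apply mul_le_mul_of_nonneg_left _ (nr_nonneg r i a x)
            exact pow_le_pow_left₀ (j2 D x).1 (j3 D _ (Finset.erase_subset a D) x) 2
      _ = ∫ x, wh (fun z => ‖u z‖ ^ 2) u i x
            * ((∏ c ∈ {a}, nr r i c x) * JA f1 f2 (D.erase a) x ^ 2) := by
          refine integral_congr_ae (Eventually.of_forall fun x => ?_)
          simp only [Finset.prod_singleton, wh_eq]
      _ ≤ (∫ z, ‖u z‖ ^ 2) * (∏ c ∈ ({a} : Finset (Fin N)), C0 * r ^ 3)
            * ZA f1 f2 u (D.erase a) := by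
          refine hCL' N i {a} (D.erase a) ?_ ?_ ?_ (fun _ => r) (fun _ => hr0)
          · simpa using hia
          · exact fun h => hi (Finset.mem_of_mem_erase h)
          · simp
      _ = C0 * r ^ 3 * Z (D.erase a) := by
          rw [hu.norm, Finset.prod_singleton, one_mul]
  -- two close particles
  have t2 : ∀ (D : Finset (Fin N)) (i a b : Fin N), i ∉ D → a ∈ D → b ∈ D.erase a →
      ∫ x, wu u x * (nr ρ i a x * nr ρ a b x * JA f1 f2 D x ^ 2)
        ≤ (C0 * ρ ^ 3) ^ 2 * Z ((D.erase a).erase b) := by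
    intro D i a b hi ha hb
    have hia : i ≠ a := fun h => hi (h ▸ ha)
    have hib : i ≠ b := fun h => hi (h ▸ Finset.mem_of_mem_erase hb)
    have hba : b ≠ a := (Finset.mem_erase.1 hb).1
    have hsub : (D.erase a).erase b ⊆ D :=
      (Finset.erase_subset _ _).trans (Finset.erase_subset _ _)
    calc ∫ x, wu u x * (nr ρ i a x * nr ρ a b x * JA f1 f2 D x ^ 2)
        ≤ ∫ x, wu u x * (nr ρ i a x * nr ρ a b x * JA f1 f2 ((D.erase a).erase b) x ^ 2) := by
          apply integral_mono
          · exact intg hu (((nr_meas ρ i a).mul (nr_meas ρ a b)).mul (m2 D))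
              (fun x => mul_nonneg (mul_nonneg (nr_nonneg ρ i a x) (nr_nonneg ρ a b x))
                (sq_nonneg _))
              (fun x => mul_le_one₀ (mul_le_one₀ (nr_le ρ i a x) (nr_nonneg ρ a b x)
                (nr_le ρ a b x)) (sq_nonneg _) (sq_le hJF D x))
          · exact intg hu (((nr_meas ρ i a).mul (nr_meas ρ a b)).mul (m2 _))
              (fun x => mul_nonneg (mul_nonneg (nr_nonneg ρ i a x) (nr_nonneg ρ a b x))
                (sq_nonneg _))
              (fun x => mul_le_one₀ (mul_le_one₀ (nr_le ρ i a x) (nr_nonneg ρ a b x)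
                (nr_le ρ a b x)) (sq_nonneg _) (sq_le hJF _ x))
          · intro x
            apply mul_le_mul_of_nonneg_left _ (wu_nonneg u x)
            apply mul_le_mul_of_nonneg_left _
              (mul_nonneg (nr_nonneg ρ i a x) (nr_nonneg ρ a b x))
            exact pow_le_pow_left₀ (j2 D x).1 (j3 D _ hsub x) 2
      _ = ∫ x, wh (fun z => ‖u z‖ ^ 2) u a x
            * ((∏ c ∈ {i, b}, nr ρ a c x) * JA f1 f2 ((D.erase a).erase b) x ^ 2) := by
          refine integral_congr_ae (Eventually.of_forall fun x => ?_)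
          simp only [wh_eq]
          rw [Finset.prod_pair hib, nr_symm ρ i a]
      _ ≤ (∫ z, ‖u z‖ ^ 2) * (∏ c ∈ ({i, b} : Finset (Fin N)), C0 * ρ ^ 3)
            * ZA f1 f2 u ((D.erase a).erase b) := by
          refine hCL' N a {i, b} ((D.erase a).erase b) ?_ ?_ ?_ (fun _ => ρ) (fun _ => hρ0)
          · simp only [Finset.mem_insert, Finset.mem_singleton, not_or]
            exact ⟨hia.symm, hba.symm⟩
          · simp
          · rw [Finset.disjoint_left]
            intro c hc hc'
            simp only [Finset.mem_insert, Finset.mem_singleton] at hc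
            rcases hc with h | h
            · exact hi (h ▸ hsub hc')
            · rw [h] at hc'
              simp at hc'
      _ = (C0 * ρ ^ 3) ^ 2 * Z ((D.erase a).erase b) := by
          rw [hu.norm, Finset.prod_pair hib, one_mul, sq]
  set y : ℝ := C1 / N with hy
  have hy0 : 0 < y := by positivity
  have hy2 : y ≤ 1 / 2 := by
    rw [hy, div_le_iff₀ hN0]; linarith
  have h2y : 2 * C1 / (N : ℝ) = 2 * y := by rw [hy]; ring
  rw [h2y]
  -- induction
  have key : ∀ n : ℕ, ∀ A : Finset (Fin N), A.card = n → ∀ i ∈ A,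
      Z (A.erase i) ≤ (1 + 2 * y) * Z A := by
    intro n
    induction n using Nat.strong_induction_on with
    | _ n ih =>
      intro A hA i hi
      set D := A.erase i with hD
      have hDc : D.card < n := by
        rw [hD, ← hA]; exact Finset.card_erase_lt_of_mem hi
      have hiD : i ∉ D := by simp [hD]
      have hDN : (D.card : ℝ) ≤ N := by
        have := Finset.card_le_univ D
        rw [Fintype.card_fin] at this
        exact_mod_cast this
      have hZD := hZ0 D
      have e1 : ∀ a ∈ D, Z (D.erase a) ≤ 2 * Z D := by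
        intro a ha
        have h1 := ih _ hDc D rfl a ha
        nlinarith
      have e2 : ∀ a ∈ D, ∀ b ∈ D.erase a, Z ((D.erase a).erase b) ≤ 4 * Z D := by
        intro a ha b hb
        have hc : (D.erase a).card < n := (Finset.card_erase_lt_of_mem ha).trans hDc
        have h1 := ih _ hc (D.erase a) rfl b hb
        have h2 := e1 a ha
        have h3 := hZ0 (D.erase a)
        nlinarith
      have hm := main_ineq hu hJF A i hi
      have s1 : ∑ a ∈ D, ∫ x, wu u x * (nr r i a x * JA f1 f2 D x ^ 2)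
          ≤ N * (C0 * r ^ 3 * (2 * Z D)) := by
        calc ∑ a ∈ D, ∫ x, wu u x * (nr r i a x * JA f1 f2 D x ^ 2)
            ≤ ∑ _a ∈ D, C0 * r ^ 3 * (2 * Z D) := by
              apply Finset.sum_le_sum
              intro a ha
              exact (t1 D i a hiD ha).trans
                (mul_le_mul_of_nonneg_left (e1 a ha) (by positivity))
          _ = D.card * (C0 * r ^ 3 * (2 * Z D)) := by
              rw [Finset.sum_const, nsmul_eq_mul]
          _ ≤ N * (C0 * r ^ 3 * (2 * Z D)) :=
              mul_le_mul_of_nonneg_right hDN (by positivity)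
      have s2 : ∑ a ∈ D, ∑ b ∈ D.erase a,
          ∫ x, wu u x * (nr ρ i a x * nr ρ a b x * JA f1 f2 D x ^ 2)
          ≤ N * (N * ((C0 * ρ ^ 3) ^ 2 * (4 * Z D))) := by
        calc ∑ a ∈ D, ∑ b ∈ D.erase a,
              ∫ x, wu u x * (nr ρ i a x * nr ρ a b x * JA f1 f2 D x ^ 2)
            ≤ ∑ _a ∈ D, N * ((C0 * ρ ^ 3) ^ 2 * (4 * Z D)) := by
              apply Finset.sum_le_sum
              intro a ha
              calc ∑ b ∈ D.erase a,
                    ∫ x, wu u x * (nr ρ i a x * nr ρ a b x * JA f1 f2 D x ^ 2)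
                  ≤ ∑ _b ∈ D.erase a, (C0 * ρ ^ 3) ^ 2 * (4 * Z D) := by
                    apply Finset.sum_le_sum
                    intro b hb
                    exact (t2 D i a b hiD ha hb).trans
                      (mul_le_mul_of_nonneg_left (e2 a ha b hb) (by positivity))
                _ = (D.erase a).card * ((C0 * ρ ^ 3) ^ 2 * (4 * Z D)) := by
                    rw [Finset.sum_const, nsmul_eq_mul]
                _ ≤ N * ((C0 * ρ ^ 3) ^ 2 * (4 * Z D)) := by
                    apply mul_le_mul_of_nonneg_right _ (by positivity)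
                    have h1 : ((D.erase a).card : ℝ) ≤ D.card := by
                      exact_mod_cast Finset.card_erase_le
                    linarith
          _ = D.card * (N * ((C0 * ρ ^ 3) ^ 2 * (4 * Z D))) := by
              rw [Finset.sum_const, nsmul_eq_mul]
          _ ≤ N * (N * ((C0 * ρ ^ 3) ^ 2 * (4 * Z D))) :=
              mul_le_mul_of_nonneg_right hDN (by positivity)
      have hρ6 : ρ ^ 6 = (2 * R2) ^ 6 / N ^ 3 := by
        rw [hρ, div_pow]
        congr 1
        have h1 : Real.sqrt (N : ℝ) ^ 6 = (Real.sqrt (N : ℝ) ^ 2) ^ 3 := by ring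
        rw [h1, Real.sq_sqrt hN0.le]
      have s3 : N * (C0 * r ^ 3 * (2 * Z D)) ≤ 2 * C0 * R1 ^ 3 / N * Z D := by
        have e : N * (C0 * r ^ 3 * (2 * Z D)) = (2 * C0 * R1 ^ 3 / N * Z D) * (1 / N) := by
          rw [hr]; field_simp
        rw [e]
        apply mul_le_of_le_one_right (by positivity)
        rw [div_le_one hN0]
        exact hN1
      have s4 : N * (N * ((C0 * ρ ^ 3) ^ 2 * (4 * Z D)))
          = 4 * C0 ^ 2 * (2 * R2) ^ 6 / N * Z D := by
        have e : N * (N * ((C0 * ρ ^ 3) ^ 2 * (4 * Z D)))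
            = N ^ 2 * (C0 ^ 2 * ρ ^ 6 * (4 * Z D)) := by ring
        rw [e, hρ6]
        field_simp
      have s5 : Z D ≤ Z A + y * Z D := by
        have e : y * Z D = 2 * C0 * R1 ^ 3 / N * Z D + 4 * C0 ^ 2 * (2 * R2) ^ 6 / N * Z D := by
          rw [hy, hC1]; ring
        rw [e]
        have h1 : Z D ≤ Z A + (∑ a ∈ D, ∫ x, wu u x * (nr r i a x * JA f1 f2 D x ^ 2))
            + ∑ a ∈ D, ∑ b ∈ D.erase a,
              ∫ x, wu u x * (nr ρ i a x * nr ρ a b x * JA f1 f2 D x ^ 2) := hm
        linarith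
      have s6 : (1 - y) * Z D ≤ Z A := by linarith
      have s7 : (1 + 2 * y) * ((1 - y) * Z D) ≤ (1 + 2 * y) * Z A :=
        mul_le_mul_of_nonneg_left s6 (by linarith)
      have s8 : Z D ≤ (1 + 2 * y) * ((1 - y) * Z D) := by
        have h1 : 1 ≤ (1 + 2 * y) * (1 - y) := by nlinarith
        have h2 := mul_le_mul_of_nonneg_right h1 hZD
        linarith
      linarith
  exact fun A i hi => key A.card A rfl i hi

end Pool.Agent.W162.TWB
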